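import Pool.Agent.V5helper66.LD.Stm

/-!
# Job DET of project LD: lower bound of the discrepancy from a separated family in the dual lattice
-/

set_option autoImplicit false

open Finset

namespace Pool.Agent.V5helper19.LD

open V5LD

/-- geometric sums of separated numbers -/
theorem geo {ι : Type} [DecidableEq ι] (x : ι → ℝ) (R : ℝ) (hR : 3 ≤ R) (n : ℕ) :
    ∀ S : Finset ι, S.card = n → (∀ j ∈ S, 0 < x j) →
    (∀ j ∈ S, ∀ k ∈ S, j ≠ k → R * x j ≤ x k ∨ R * x k ≤ x j) →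
    ∀ X : ℝ, 0 ≤ X → (∀ j ∈ S, R * x j ≤ X) → ∑ j ∈ S, x j ≤ X / 2 := by
  induction n with
  | zero =>
    intro S hS _ _ X hX _
    rw [Finset.card_eq_zero.1 hS, Finset.sum_empty]
    positivity
  | succ n ih =>
    intro S hS hpos hsep X hX hle
    have hne : S.Nonempty := Finset.card_pos.1 (by omega)
    obtain ⟨j1, hj1, hmax⟩ := S.exists_max_image x hne
    have h1 := ih (S.erase j1) (by rw [Finset.card_erase_of_mem hj1, hS]; rfl)
      (fun j hj => hpos j (Finset.mem_of_mem_erase hj))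
      (fun j hj k hk hjk => hsep j (Finset.mem_of_mem_erase hj) k (Finset.mem_of_mem_erase hk) hjk)
      (x j1) (hpos j1 hj1).le (fun j hj => by
        have hjS := Finset.mem_of_mem_erase hj
        have hjne := Finset.ne_of_mem_erase hj
        rcases hsep j hjS j1 hj1 hjne with h | h
        · exact h
        · have h2 := hmax j hjS
          have h3 := hpos j1 hj1
          nlinarith)
    rw [← Finset.add_sum_erase S x hj1]
    have h2 := hle j1 hj1
    have h3 := hpos j1 hj1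
    nlinarith

/-- chains of separated numbers -/
theorem chain {ι : Type} [DecidableEq ι] (x : ι → ℝ) (R : ℝ) (hR : 3 ≤ R) (n : ℕ) :
    ∀ S : Finset ι, S.card = n + 1 → (∀ j ∈ S, 0 < x j) →
    (∀ j ∈ S, ∀ k ∈ S, j ≠ k → R * x j ≤ x k ∨ R * x k ≤ x j) →
    ∀ a b : ℝ, (∀ j ∈ S, a ≤ x j) → (∀ j ∈ S, x j ≤ b) → R ^ n * a ≤ b := by
  induction n with
  | zero =>
    intro S hS _ _ a b ha hb
    obtain ⟨j, hj⟩ : S.Nonempty := Finset.card_pos.1 (by omega)
    rw [pow_zero, one_mul]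
    exact (ha j hj).trans (hb j hj)
  | succ n ih =>
    intro S hS hpos hsep a b ha hb
    have hne : S.Nonempty := Finset.card_pos.1 (by omega)
    obtain ⟨j1, hj1, hmax⟩ := S.exists_max_image x hne
    have hR0 : 0 < R := by linarith
    have h1 := ih (S.erase j1) (by rw [Finset.card_erase_of_mem hj1, hS]; rfl)
      (fun j hj => hpos j (Finset.mem_of_mem_erase hj))
      (fun j hj k hk hjk => hsep j (Finset.mem_of_mem_erase hj) k (Finset.mem_of_mem_erase hk) hjk)
      a (x j1 / R) (fun j hj => ha j (Finset.mem_of_mem_erase hj)) (fun j hj => by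
        have hjS := Finset.mem_of_mem_erase hj
        have hjne := Finset.ne_of_mem_erase hj
        rw [le_div_iff₀ hR0]
        rcases hsep j hjS j1 hj1 hjne with h | h
        · linarith
        · have h2 := hmax j hjS
          have h3 := hpos j1 hj1
          nlinarith)
    rw [le_div_iff₀ hR0] at h1
    calc R ^ (n + 1) * a = R ^ n * a * R := by ring
      _ ≤ x j1 := h1
      _ ≤ b := hb j1 hj1

theorem pow_supp {L : ℕ} (s : Fin L → ℤ) (q : ℝ) :
    q ^ supp s = ∏ j, (if s j ≠ 0 then q else 1) := by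
  unfold supp
  rw [Finset.prod_ite, Finset.prod_const, Finset.prod_const_one, mul_one]

theorem sum_signs (L : ℕ) (q : ℝ) : ∑ s ∈ signs L, q ^ supp s = (1 + 2 * q) ^ L := by
  unfold signs
  simp_rw [pow_supp]
  rw [← Finset.prod_univ_sum (fun _ => ({-1, 0, 1} : Finset ℤ))
    (fun _ t => if t ≠ 0 then q else 1)]
  have h : ∑ t ∈ ({-1, 0, 1} : Finset ℤ), (if t ≠ 0 then q else 1) = 1 + 2 * q := by
    rw [Finset.sum_insert (by decide), Finset.sum_insert (by decide), Finset.sum_singleton]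
    norm_num
    ring
  rw [Finset.prod_congr rfl fun _ _ => h, Finset.prod_const, Finset.card_univ, Fintype.card_fin]

/-- the sum over sign vectors with at least two entries -/
theorem sum_two {L : ℕ} (hL : 0 < L) {R : ℝ} (hR : 0 < R) (hLR : (L : ℝ) ≤ R) :
    ∑ s ∈ (signs L).filter (fun s => 2 ≤ supp s), (1 / (2 * R)) ^ supp s ≤ 3 * ((L : ℝ) / R) ^ 2 := by
  have hL' : (0 : ℝ) < L := by exact_mod_cast hL
  have h1 : ∀ s ∈ (signs L).filter (fun s => 2 ≤ supp s), (1 / (2 * R)) ^ supp s ≤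
      ((L : ℝ) / R) ^ 2 * (1 / (2 * (L : ℝ))) ^ supp s := by
    intro s hs
    obtain ⟨m, hm⟩ := Nat.exists_eq_add_of_le (Finset.mem_filter.1 hs).2
    rw [hm]
    have e1 : (1 / (2 * R)) ^ (2 + m) = ((L : ℝ) / R) ^ (2 + m) * (1 / (2 * (L : ℝ))) ^ (2 + m) := by
      rw [← mul_pow]
      congr 1
      field_simp
    rw [e1]
    apply mul_le_mul_of_nonneg_right _ (by positivity)
    have h2 : (L : ℝ) / R ≤ 1 := (div_le_one hR).2 hLR
    exact pow_le_pow_of_le_one (by positivity) h2 (by omega)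
  have h2 : ∑ s ∈ (signs L).filter (fun s => 2 ≤ supp s), (1 / (2 * (L : ℝ))) ^ supp s ≤
      ∑ s ∈ signs L, (1 / (2 * (L : ℝ))) ^ supp s :=
    Finset.sum_le_sum_of_subset_of_nonneg (Finset.filter_subset _ _) fun s _ _ => by positivity
  have h3 : (1 + 2 * (1 / (2 * (L : ℝ)))) ^ L ≤ 3 := by
    have e : 1 + 2 * (1 / (2 * (L : ℝ))) = 1 / L + 1 := by field_simp; ring
    rw [e]
    calc (1 / (L : ℝ) + 1) ^ L ≤ (Real.exp (1 / L)) ^ L :=
          pow_le_pow_left₀ (by positivity) (Real.add_one_le_exp _) L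
      _ = Real.exp 1 := by
          rw [← Real.exp_nat_mul]
          congr 1
          field_simp
      _ ≤ 3 := by
          have := Real.exp_one_lt_d9
          linarith
  rw [sum_signs] at h2
  calc ∑ s ∈ (signs L).filter (fun s => 2 ≤ supp s), (1 / (2 * R)) ^ supp s
      ≤ ∑ s ∈ (signs L).filter (fun s => 2 ≤ supp s),
          ((L : ℝ) / R) ^ 2 * (1 / (2 * (L : ℝ))) ^ supp s := Finset.sum_le_sum h1
    _ = ((L : ℝ) / R) ^ 2 * ∑ s ∈ (signs L).filter (fun s => 2 ≤ supp s),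
          (1 / (2 * (L : ℝ))) ^ supp s := by rw [Finset.mul_sum]
    _ ≤ ((L : ℝ) / R) ^ 2 * 3 := by
        apply mul_le_mul_of_nonneg_left (h2.trans h3) (by positivity)
    _ = 3 * ((L : ℝ) / R) ^ 2 := by ring

/-- a subfamily with a sum of the right size -/
theorem subfam {α : Type} [DecidableEq α] (w : α → ℝ) (H : Finset α) (t T : ℝ) (hT : 0 < T)
    (ht : t ≤ T) (hw : ∀ h ∈ H, w h ≤ t) (hsum : T ≤ ∑ h ∈ H, w h) :
    ∃ H' ⊆ H, H'.Nonempty ∧ T ≤ ∑ h ∈ H', w h ∧ ∑ h ∈ H', w h ≤ 2 * T := by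
  classical
  have hne : (H.powerset.filter fun K => T ≤ ∑ h ∈ K, w h).Nonempty :=
    ⟨H, by simp [hsum]⟩
  obtain ⟨K, hK, hmin⟩ := Finset.exists_min_image _ Finset.card hne
  rw [Finset.mem_filter, Finset.mem_powerset] at hK
  have hKne : K.Nonempty := by
    rw [Finset.nonempty_iff_ne_empty]
    rintro rfl
    rw [Finset.sum_empty] at hK
    linarith [hK.2]
  refine ⟨K, hK.1, hKne, hK.2, ?_⟩
  obtain ⟨k, hk⟩ := hKne
  have h1 : ∑ h ∈ K.erase k, w h < T := by
    by_contra hcon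
    rw [not_lt] at hcon
    have h2 := hmin (K.erase k) (by
      rw [Finset.mem_filter, Finset.mem_powerset]
      exact ⟨(Finset.erase_subset _ _).trans hK.1, hcon⟩)
    rw [Finset.card_erase_of_mem hk] at h2
    have : 0 < K.card := Finset.card_pos.2 ⟨k, hk⟩
    omega
  have h2 := hw k (hK.1 hk)
  rw [← Finset.add_sum_erase K w hk]
  linarith

theorem t_DET (hA : S_ANA) : S_DET := by
  intro d hd
  have hpi := Real.pi_pos
  refine ⟨(1 / 2) * (1 / (4 * Real.pi)) ^ d, by positivity, (1 / 2) ^ d / 24, by positivity, ?_⟩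
  intro N a H R t1 t2 T D hN hR ht1 ht2 htT hTR hTe hH hdiv hD
  have hN' : (0 : ℝ) < N := by exact_mod_cast hN
  have hT : 0 < T := lt_of_lt_of_le ht2 htT
  have hR0 : 0 < R := by linarith
  have habs : ∀ h ∈ H, ∀ i, 0 < |(h i : ℝ)| := fun h hh i =>
    abs_pos.2 (by exact_mod_cast hH.nz h hh i)
  have hrr : ∀ h ∈ H, 0 < rr h := fun h hh => Finset.prod_pos fun i _ => habs h hh i
  have hw2 : ∀ h ∈ H, (N : ℝ) / rr h ≤ t2 := fun h hh => by
    rw [div_le_iff₀ (hrr h hh)]
    exact hH.hi h hh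
  have hw1 : ∀ h ∈ H, t1 ≤ (N : ℝ) / rr h := fun h hh => by
    rw [le_div_iff₀ (hrr h hh)]
    exact hH.lo h hh
  obtain ⟨K, hKH, hKne, hK1, hK2⟩ := subfam (fun h => (N : ℝ) / rr h) H t2 T hT htT hw2 hH.sum
  set L : ℕ := K.card with hLdef
  have hL : 0 < L := Finset.card_pos.2 hKne
  have hLt : (L : ℝ) * t1 ≤ 2 * T := by
    have h1 : ∑ h ∈ K, t1 ≤ ∑ h ∈ K, (N : ℝ) / rr h :=
      Finset.sum_le_sum fun h hh => hw1 h (hKH hh)
    rw [Finset.sum_const, nsmul_eq_mul] at h1
    exact h1.trans hK2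
  have hLR : (L : ℝ) ≤ R := by
    have : (L : ℝ) * t1 ≤ R * t1 := hLt.trans hTR
    exact le_of_mul_le_mul_right this ht1
  let e := K.equivFin
  let h : Fin L → Fin d → ℤ := fun j => ((e.symm j : K) : Fin d → ℤ)
  have hmem : ∀ j, h j ∈ K := fun j => (e.symm j).2
  have hinj : ∀ j k, j ≠ k → h j ≠ h k := fun j k hjk he =>
    hjk (e.symm.injective (Subtype.ext he))
  have hsum : ∀ f : (Fin d → ℤ) → ℝ, ∑ j, f (h j) = ∑ x ∈ K, f x := by
    intro f
    rw [← Finset.sum_coe_sort K f]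
    exact Equiv.sum_comp e.symm (fun x : K => f x)
  have hpos : ∀ i j, 0 < |(h j i : ℝ)| := fun i j => habs _ (hKH (hmem j)) i
  have hsep : ∀ i, ∀ j k, j ≠ k → R * |(h j i : ℝ)| ≤ |(h k i : ℝ)| ∨
      R * |(h k i : ℝ)| ≤ |(h j i : ℝ)| := fun i j k hjk =>
    hH.sep _ (hKH (hmem j)) _ (hKH (hmem k)) (hinj j k hjk) i
  -- sums over sign vectors
  have key : ∀ s ∈ signs L, ∀ i, ∀ j0, s j0 ≠ 0 → (∀ j, s j ≠ 0 → |(h j i : ℝ)| ≤ |(h j0 i : ℝ)|) →
      |(h j0 i : ℝ)| / 2 ≤ |((∑ j, s j * h j i : ℤ) : ℝ)| := by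
    intro s hs i j0 hj0 hmax
    have hs1 : ∀ j, s j ≠ 0 → |(s j : ℝ)| = 1 := by
      intro j hj
      have h1 := Fintype.mem_piFinset.1 hs j
      simp only [Finset.mem_insert, Finset.mem_singleton] at h1
      rcases h1 with h1 | h1 | h1
      · rw [h1]; norm_num
      · exact absurd h1 hj
      · rw [h1]; norm_num
    set S : Finset (Fin L) := (univ.filter fun j => s j ≠ 0).erase j0 with hS
    have hg := geo (fun j => |(h j i : ℝ)|) R hR S.card S rfl (fun j _ => hpos i j)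
      (fun j _ k _ hjk => hsep i j k hjk) |(h j0 i : ℝ)| (abs_nonneg _) (fun j hj => by
        have hjne : j ≠ j0 := Finset.ne_of_mem_erase hj
        have hj2 : s j ≠ 0 := (Finset.mem_filter.1 (Finset.mem_of_mem_erase hj)).2
        rcases hsep i j j0 hjne with h1 | h1
        · exact h1
        · have h2 := hmax j hj2
          have h3 := hpos i j0
          nlinarith)
    have e1 : ((∑ j, s j * h j i : ℤ) : ℝ) = (s j0 : ℝ) * h j0 i + ∑ j ∈ S, (s j : ℝ) * h j i := by
      push_cast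
      rw [hS, Finset.add_sum_erase (univ.filter fun j => s j ≠ 0)
        (fun j => (s j : ℝ) * (h j i : ℝ)) (by simp [hj0])]
      rw [Finset.sum_filter]
      refine Finset.sum_congr rfl fun j _ => ?_
      by_cases hj : s j = 0
      · simp [hj]
      · simp [hj]
    have e2 : |∑ j ∈ S, (s j : ℝ) * h j i| ≤ ∑ j ∈ S, |(h j i : ℝ)| := by
      refine (Finset.abs_sum_le_sum_abs _ _).trans (Finset.sum_le_sum fun j hj => ?_)
      have hj2 : s j ≠ 0 := (Finset.mem_filter.1 (Finset.mem_of_mem_erase hj)).2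
      rw [abs_mul, hs1 j hj2, one_mul]
    have e3 : |(s j0 : ℝ) * h j0 i| = |(h j0 i : ℝ)| := by rw [abs_mul, hs1 j0 hj0, one_mul]
    rw [e1]
    have e4 := abs_sub_abs_le_abs_sub ((s j0 : ℝ) * h j0 i) (-∑ j ∈ S, (s j : ℝ) * h j i)
    rw [sub_neg_eq_add, abs_neg, e3] at e4
    linarith
  have hex : ∀ s : Fin L → ℤ, s ≠ 0 → ∀ i, ∃ j0, s j0 ≠ 0 ∧
      ∀ j, s j ≠ 0 → |(h j i : ℝ)| ≤ |(h j0 i : ℝ)| := by
    intro s hs i
    have hne : (univ.filter fun j => s j ≠ 0).Nonempty := by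
      by_contra hcon
      rw [Finset.not_nonempty_iff_eq_empty] at hcon
      apply hs
      funext j
      by_contra hj
      have : j ∈ (univ.filter fun j => s j ≠ 0) := by simpa using hj
      rw [hcon] at this
      exact absurd this (Finset.notMem_empty j)
    obtain ⟨j0, hj0, hmax⟩ := Finset.exists_max_image _ (fun j => |(h j i : ℝ)|) hne
    exact ⟨j0, (Finset.mem_filter.1 hj0).2, fun j hj => hmax j (by simpa using hj)⟩
  have hana := hA d N L a D h hd hN hD (fun j => hdiv _ (hKH (hmem j))) (by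
    intro s hs hs0 i h0
    obtain ⟨j0, hj0, hmax⟩ := hex s hs0 i
    have h1 := key s hs i j0 hj0 hmax
    have h2 := hpos i j0
    rw [h0, Int.cast_zero, abs_zero] at h1
    linarith)
  -- main term
  have hmain : (1 / (2 * Real.pi)) ^ d * (T / N) ≤ ∑ j, ∏ i, (1 / (2 * Real.pi * |(h j i : ℝ)|)) := by
    have e1 : ∀ x : Fin d → ℤ, ∏ i, (1 / (2 * Real.pi * |(x i : ℝ)|)) =
        (1 / (2 * Real.pi)) ^ d * (1 / rr x) := by
      intro x
      have : ∀ i, 1 / (2 * Real.pi * |(x i : ℝ)|) = (1 / (2 * Real.pi)) * (1 / |(x i : ℝ)|) := by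
        intro i
        rw [one_div_mul_one_div]
      simp_rw [this]
      rw [Finset.prod_mul_distrib, Finset.prod_const, Finset.card_univ, Fintype.card_fin]
      congr 1
      unfold rr
      rw [one_div, ← Finset.prod_inv_distrib]
      exact Finset.prod_congr rfl fun i _ => one_div _
    have e2 : ∑ j, ∏ i, (1 / (2 * Real.pi * |(h j i : ℝ)|)) =
        (1 / (2 * Real.pi)) ^ d * ((∑ x ∈ K, (N : ℝ) / rr x) / N) := by
      rw [hsum (fun x => ∏ i, (1 / (2 * Real.pi * |(x i : ℝ)|)))]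
      simp_rw [e1]
      rw [← Finset.mul_sum, Finset.sum_div]
      congr 1
      refine Finset.sum_congr rfl fun x hx => ?_
      have := hrr x (hKH hx)
      field_simp
    rw [e2]
    apply mul_le_mul_of_nonneg_left _ (by positivity)
    exact div_le_div_of_nonneg_right hK1 hN'.le
  -- error term
  have herr : ∀ s ∈ (signs L).filter (fun s => 2 ≤ supp s),
      (1 / 2 : ℝ) ^ (supp s) * ∏ i, (1 / (2 * Real.pi * |((∑ j, s j * h j i : ℤ) : ℝ)|)) ≤
      (1 / Real.pi) ^ d * (t2 / N) * R * (1 / (2 * R)) ^ supp s := by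
    intro s hs
    obtain ⟨hs1, hs2⟩ := Finset.mem_filter.1 hs
    have hs0 : s ≠ 0 := by
      rintro rfl
      simp [supp] at hs2
    choose j0 hj0 hmax using hex s hs0
    -- the index with minimal coordinate `0`
    have hne : (univ.filter fun j => s j ≠ 0).Nonempty := ⟨j0 ⟨0, hd⟩, by simpa using hj0 ⟨0, hd⟩⟩
    obtain ⟨jm, hjm, hmin⟩ := Finset.exists_min_image _ (fun j => |(h j ⟨0, hd⟩ : ℝ)|) hne
    have hjm2 : s jm ≠ 0 := (Finset.mem_filter.1 hjm).2
    obtain ⟨m, hm⟩ : ∃ m, supp s = m + 1 := ⟨supp s - 1, by omega⟩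
    have hch := chain (fun j => |(h j ⟨0, hd⟩ : ℝ)|) R hR m (univ.filter fun j => s j ≠ 0)
      hm (fun j _ => hpos _ j) (fun j _ k _ hjk => hsep _ j k hjk) |(h jm ⟨0, hd⟩ : ℝ)|
      |(h (j0 ⟨0, hd⟩) ⟨0, hd⟩ : ℝ)| (fun j hj => hmin j hj)
      (fun j hj => hmax ⟨0, hd⟩ j (Finset.mem_filter.1 hj).2)
    -- product of maxima
    have hprod : R ^ m * (N / t2) ≤ ∏ i, |(h (j0 i) i : ℝ)| := by
      have h1 : R ^ m * rr (h jm) ≤ ∏ i, |(h (j0 i) i : ℝ)| := by
        unfold rr
        rw [← Finset.mul_prod_erase univ (fun i => |(h jm i : ℝ)|) (Finset.mem_univ ⟨0, hd⟩),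
          ← Finset.mul_prod_erase univ (fun i => |(h (j0 i) i : ℝ)|) (Finset.mem_univ ⟨0, hd⟩),
          ← mul_assoc]
        apply mul_le_mul hch
        · exact Finset.prod_le_prod (fun i _ => abs_nonneg _) fun i _ => hmax i jm hjm2
        · exact Finset.prod_nonneg fun i _ => abs_nonneg _
        · exact abs_nonneg _
      refine le_trans ?_ h1
      apply mul_le_mul_of_nonneg_left _ (by positivity)
      rw [div_le_iff₀ ht2, mul_comm]
      exact hH.hi _ (hKH (hmem jm))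
    have hfac : ∏ i, (1 / (2 * Real.pi * |((∑ j, s j * h j i : ℤ) : ℝ)|)) ≤
        (1 / Real.pi) ^ d * (1 / ∏ i, |(h (j0 i) i : ℝ)|) := by
      have h1 : ∀ i, 1 / (2 * Real.pi * |((∑ j, s j * h j i : ℤ) : ℝ)|) ≤
          (1 / Real.pi) * (1 / |(h (j0 i) i : ℝ)|) := by
        intro i
        have h2 := key s hs1 i (j0 i) (hj0 i) (hmax i)
        have h3 := hpos i (j0 i)
        rw [one_div_mul_one_div]
        apply one_div_le_one_div_of_le (by positivity)
        nlinarith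
      refine (Finset.prod_le_prod (fun i _ => by positivity) fun i _ => h1 i).trans ?_
      rw [Finset.prod_mul_distrib, Finset.prod_const, Finset.card_univ, Fintype.card_fin]
      apply le_of_eq
      congr 1
      rw [one_div, ← Finset.prod_inv_distrib]
      exact Finset.prod_congr rfl fun i _ => one_div _
    have hq : 0 < R ^ m * (N / t2) := by positivity
    have hfac2 : (1 / Real.pi) ^ d * (1 / ∏ i, |(h (j0 i) i : ℝ)|) ≤
        (1 / Real.pi) ^ d * (1 / (R ^ m * (N / t2))) :=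
      mul_le_mul_of_nonneg_left (one_div_le_one_div_of_le hq hprod) (by positivity)
    calc (1 / 2 : ℝ) ^ (supp s) * ∏ i, (1 / (2 * Real.pi * |((∑ j, s j * h j i : ℤ) : ℝ)|))
        ≤ (1 / 2 : ℝ) ^ (supp s) * ((1 / Real.pi) ^ d * (1 / (R ^ m * (N / t2)))) :=
          mul_le_mul_of_nonneg_left (hfac.trans hfac2) (by positivity)
      _ = (1 / Real.pi) ^ d * (t2 / N) * R * (1 / (2 * R)) ^ supp s := by
          rw [hm, show (1 / (2 * R)) = (1 / 2) * (1 / R) by rw [one_div_mul_one_div], mul_pow,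
            one_div_pow R]
          field_simp
          ring
  have hsum2 := sum_two hL hR0 hLR
  have herr2 : ∑ s ∈ (signs L).filter (fun s => 2 ≤ supp s),
      (1 / 2 : ℝ) ^ (supp s) * ∏ i, (1 / (2 * Real.pi * |((∑ j, s j * h j i : ℤ) : ℝ)|)) ≤
      (1 / 2) * ((1 / (2 * Real.pi)) ^ d * (T / N)) := by
    calc ∑ s ∈ (signs L).filter (fun s => 2 ≤ supp s),
        (1 / 2 : ℝ) ^ (supp s) * ∏ i, (1 / (2 * Real.pi * |((∑ j, s j * h j i : ℤ) : ℝ)|))
        ≤ ∑ s ∈ (signs L).filter (fun s => 2 ≤ supp s),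
            (1 / Real.pi) ^ d * (t2 / N) * R * (1 / (2 * R)) ^ supp s := Finset.sum_le_sum herr
      _ = (1 / Real.pi) ^ d * (t2 / N) * R *
            ∑ s ∈ (signs L).filter (fun s => 2 ≤ supp s), (1 / (2 * R)) ^ supp s := by
          rw [Finset.mul_sum]
      _ ≤ (1 / Real.pi) ^ d * (t2 / N) * R * (3 * ((L : ℝ) / R) ^ 2) :=
          mul_le_mul_of_nonneg_left hsum2 (by positivity)
      _ = (1 / Real.pi) ^ d / N * (3 * t2 * (L : ℝ) ^ 2 / R) := by
          field_simp
      _ ≤ (1 / Real.pi) ^ d / N * (12 * ((1 / 2) ^ d / 24) * T) := by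
          apply mul_le_mul_of_nonneg_left _ (by positivity)
          rw [div_le_iff₀ hR0]
          have h1 : ((L : ℝ) * t1) ^ 2 ≤ (2 * T) ^ 2 := pow_le_pow_left₀ (by positivity) hLt 2
          have h2 : 3 * t2 * (L : ℝ) ^ 2 * t1 ^ 2 ≤ 12 * ((1 / 2) ^ d / 24) * T * R * t1 ^ 2 := by
            have h3 : 3 * t2 * ((L : ℝ) * t1) ^ 2 ≤ 3 * t2 * (2 * T) ^ 2 :=
              mul_le_mul_of_nonneg_left h1 (by positivity)
            have h4 : 12 * T * (T * t2) ≤ 12 * T * ((1 / 2) ^ d / 24 * (R * t1 ^ 2)) :=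
              mul_le_mul_of_nonneg_left hTe (by positivity)
            nlinarith
          exact le_of_mul_le_mul_right h2 (by positivity)
      _ = (1 / 2) * ((1 / (2 * Real.pi)) ^ d * (T / N)) := by
          rw [show (1 / (2 * Real.pi)) = (1 / 2) * (1 / Real.pi) by rw [one_div_mul_one_div],
            mul_pow]
          field_simp
          ring
  have hfin : (1 / 2) * ((1 / (2 * Real.pi)) ^ d * (T / N)) ≤ 2 ^ d * D := by linarith
  have h2d : (0 : ℝ) < 2 ^ d := by positivity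
  have hgoal : 2 ^ d * ((1 / 2) * (1 / (4 * Real.pi)) ^ d * T / N) =
      (1 / 2) * ((1 / (2 * Real.pi)) ^ d * (T / N)) := by
    have : (1 / (2 * Real.pi)) = 2 * (1 / (4 * Real.pi)) := by
      field_simp
      norm_num
    rw [this, mul_pow]
    ring
  rw [← hgoal] at hfin
  exact le_of_mul_le_mul_left hfin h2d

end Pool.Agent.V5helper19.LD
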